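import Pool.Agent.N669.CQ.Stm

/-!
# Project CQ, part EX: existence of minimal quadrilaterals
-/

set_option autoImplicit false

namespace Pool.Agent.N163.CQ

open MeasureTheory Set
open Pool.Agent.N669.CQ

/-- quadruples of points -/
abbrev Q4 := P × P × P × P

theorem ar_cyc (a b c d : P) : ar b c d a = ar a b c d := by
  unfold ar cr
  simp only [Prod.fst_sub, Prod.snd_sub]
  ring

theorem core {K : Set P} (hK : Bd K) (hv : 0 < vol K) (h3 : S_CUT) (h4 : S_DEG) {a b c d : P}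
    (ta : 0 ≤ cr (a - d) (b - a)) (tb : cr (b - a) (c - b) = 0) (tc : 0 ≤ cr (c - b) (d - c))
    (td : 0 ≤ cr (d - c) (a - d)) (hL : Lf K a b c d) (har : √2 * vol K ≤ ar a b c d)
    (hmin : ∀ a' b' c' d' : P, Ci K a' b' c' d' → ar a b c d ≤ ar a' b' c' d') : False := by
  have h1 : vol K < ar a b c d := by
    have h2 : (1 : ℝ) < √2 := Real.lt_sqrt_of_sq_lt (by norm_num)
    nlinarith
  obtain ⟨g1, g2, g3⟩ := h4 K a b c d ta tb tc td hL (hv.trans h1)
  obtain ⟨a', b', c', d', g4, g5⟩ := h3 K hK a c d g1 g3 hL.cd hL.da (by rw [← g2]; exact h1)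
  have := hmin a' b' c' d' g4
  rw [g2] at this
  linarith

theorem closed_LF (K : Set P) (f g : Q4 → P) (hf : Continuous f) (hg : Continuous g) :
    IsClosed {q : Q4 | LF K (f q) (g q)} := by
  have : {q : Q4 | LF K (f q) (g q)} = ⋂ k ∈ K, {q | 0 ≤ cr (g q - f q) (k - f q)} := by
    ext q
    simp only [LF, mem_ofPred_eq, mem_iInter]
  rw [this]
  refine isClosed_biInter fun k _ => isClosed_le continuous_const ?_
  unfold cr
  fun_prop

theorem t_EX (h1 : S_BOX) (h2 : S_BDD) (h3 : S_CUT) (h4 : S_DEG) : S_EX := by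
  intro K hK hq
  obtain ⟨hv, a0, b0, c0, d0, hC0⟩ := h1 K hK
  set M := ar a0 b0 c0 d0 with hM
  obtain ⟨R, hR⟩ := h2 K hK M
  set S : Set Q4 := {q | Ci K q.1 q.2.1 q.2.2.1 q.2.2.2 ∧ ar q.1 q.2.1 q.2.2.1 q.2.2.2 ≤ M} with hS
  have hb : S ⊆ Metric.closedBall 0 R := by
    rintro ⟨a, b, c, d⟩ ⟨g1, g2⟩
    obtain ⟨e1, e2, e3, e4⟩ := hR a b c d g1 g2
    rw [mem_closedBall_zero_iff]
    simp only [Prod.norm_mk, sup_le_iff]
    exact ⟨e1, e2, e3, e4⟩
  have hcomp : IsCompact (closure S) :=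
    Metric.isCompact_of_isClosed_isBounded isClosed_closure
      (Metric.isBounded_closedBall.subset hb).closure
  have hF : Continuous fun q : Q4 => ar q.1 q.2.1 q.2.2.1 q.2.2.2 := by
    unfold ar cr
    fun_prop
  obtain ⟨q0, hq0, hmin⟩ := hcomp.exists_isMinOn
    ⟨(a0, b0, c0, d0), subset_closure ⟨hC0, le_refl _⟩⟩ hF.continuousOn
  -- the closed conditions
  have hcl : closure S ⊆ {q : Q4 | 0 ≤ cr (q.1 - q.2.2.2) (q.2.1 - q.1)} ∩
      ({q : Q4 | 0 ≤ cr (q.2.1 - q.1) (q.2.2.1 - q.2.1)} ∩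
      ({q : Q4 | 0 ≤ cr (q.2.2.1 - q.2.1) (q.2.2.2 - q.2.2.1)} ∩
      ({q : Q4 | 0 ≤ cr (q.2.2.2 - q.2.2.1) (q.1 - q.2.2.2)} ∩
      ({q : Q4 | LF K q.1 q.2.1} ∩ ({q : Q4 | LF K q.2.1 q.2.2.1} ∩
      ({q : Q4 | LF K q.2.2.1 q.2.2.2} ∩ ({q : Q4 | LF K q.2.2.2 q.1} ∩
      ({q : Q4 | √2 * vol K ≤ ar q.1 q.2.1 q.2.2.1 q.2.2.2} ∩
      {q : Q4 | ar q.1 q.2.1 q.2.2.1 q.2.2.2 ≤ M})))))))) := by
    refine closure_minimal ?_ ?_
    · rintro q ⟨⟨hT, hL⟩, hle⟩
      exact ⟨hT.ta.le, hT.tb.le, hT.tc.le, hT.td.le, hL.ab, hL.bc, hL.cd, hL.da,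
        hq _ _ _ _ ⟨hT, hL⟩, hle⟩
    · refine IsClosed.inter (isClosed_le continuous_const ?_) (IsClosed.inter
        (isClosed_le continuous_const ?_) (IsClosed.inter (isClosed_le continuous_const ?_)
        (IsClosed.inter (isClosed_le continuous_const ?_) (IsClosed.inter
        (closed_LF K _ _ ?_ ?_) (IsClosed.inter (closed_LF K _ _ ?_ ?_) (IsClosed.inter
        (closed_LF K _ _ ?_ ?_) (IsClosed.inter (closed_LF K _ _ ?_ ?_) (IsClosed.inter
        (isClosed_le continuous_const hF) (isClosed_le hF continuous_const)))))))))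
      all_goals first | fun_prop | (unfold cr; fun_prop)
  obtain ⟨a, b, c, d⟩ := q0
  obtain ⟨ta, tb, tc, td, lab, lbc, lcd, lda, hlo, hup⟩ := hcl hq0
  simp only [mem_ofPred_eq] at ta tb tc td lab lbc lcd lda hlo hup
  have hmin' : ∀ a' b' c' d' : P, Ci K a' b' c' d' → ar a b c d ≤ ar a' b' c' d' := by
    intro a' b' c' d' hC
    rcases le_or_gt (ar a' b' c' d') M with h | h
    · exact hmin (subset_closure (show (a', b', c', d') ∈ S from ⟨hC, h⟩))
    · exact hup.trans h.le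
  have hL : Lf K a b c d := ⟨lab, lbc, lcd, lda⟩
  have e1 : ar b c d a = ar a b c d := ar_cyc a b c d
  have e2 : ar c d a b = ar a b c d := (ar_cyc b c d a).trans e1
  have e3 : ar d a b c = ar a b c d := (ar_cyc c d a b).trans e2
  rcases ta.lt_or_eq with ta' | ta'
  · rcases tb.lt_or_eq with tb' | tb'
    · rcases tc.lt_or_eq with tc' | tc'
      · rcases td.lt_or_eq with td' | td'
        · exact ⟨a, b, c, d, ⟨⟨ta', tb', tc', td'⟩, hL⟩, hmin'⟩
        · exact (core hK hv h3 h4 (a := c) (b := d) (c := a) (d := b) tc td'.symm ta tb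
            ⟨lcd, lda, lab, lbc⟩ (by rw [e2]; exact hlo) (fun a' b' c' d' h => by
              rw [e2]; exact hmin' a' b' c' d' h)).elim
      · exact (core hK hv h3 h4 (a := b) (b := c) (c := d) (d := a) tb tc'.symm td ta
          ⟨lbc, lcd, lda, lab⟩ (by rw [e1]; exact hlo) (fun a' b' c' d' h => by
            rw [e1]; exact hmin' a' b' c' d' h)).elim
    · exact (core hK hv h3 h4 ta tb'.symm tc td hL hlo hmin').elim
  · exact (core hK hv h3 h4 (a := d) (b := a) (c := b) (d := c) td ta'.symm tb tc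
      ⟨lda, lab, lbc, lcd⟩ (by rw [e3]; exact hlo) (fun a' b' c' d' h => by
        rw [e3]; exact hmin' a' b' c' d' h)).elim

end Pool.Agent.N163.CQ
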